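import Pool.Agent.Y801.FK.Core

/-!
# Project FK, part FK-SW: local sums with small moduli (helper801)
-/

set_option autoImplicit false

open Finset

namespace Pool.Agent.Y801.FK.SW

open Pool.Agent.Y755.FK Pool.Agent.Y801.FK.Core

theorem cs1_le (D : ℤ) (n k : ℕ) : |cs1 D n k| ≤ k := by
  unfold cs1
  split_ifs with h
  · have hk : (1 : ℝ) ≤ k := by
      have : 1 ≤ k := h.1.1.pos
      exact_mod_cast this
    rw [abs_mul]
    have h1 : |(1 / 2 : ℝ) ^ om k| ≤ 1 := by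
      rw [abs_of_nonneg (by positivity)]
      exact pow_le_one₀ (by norm_num) (by norm_num)
    have h2 := abs_J_le_one D k
    have h3 := abs_nonneg (J D k)
    have h4 := abs_nonneg ((1 / 2 : ℝ) ^ om k)
    nlinarith
  · simp

theorem cs2_le (D D' : ℤ) (n k : ℕ) : |cs2 D D' n k| ≤ k := by
  unfold cs2
  split_ifs with h
  · rw [abs_mul]
    have h1 : |(1 / 2 : ℝ) ^ om k| ≤ 1 := by
      rw [abs_of_nonneg (by positivity)]
      exact pow_le_one₀ (by norm_num) (by norm_num)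
    have h2 : |∑ a ∈ k.divisors, J D a * J D' (k / a)| ≤ k := by
      refine (Finset.abs_sum_le_sum_abs _ _).trans ?_
      have h3 : ∀ a ∈ k.divisors, |J D a * J D' (k / a)| ≤ 1 := by
        intro a _
        rw [abs_mul]
        have h5 := abs_J_le_one D a
        have h6 := abs_J_le_one D' (k / a)
        have h7 := abs_nonneg (J D a)
        have h8 := abs_nonneg (J D' (k / a))
        nlinarith
      refine (Finset.sum_le_sum h3).trans ?_
      rw [Finset.sum_const, nsmul_eq_mul, mul_one]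
      exact_mod_cast Nat.card_divisors_le_self k
    have h3 := abs_nonneg (∑ a ∈ k.divisors, J D a * J D' (k / a))
    have h4 := abs_nonneg ((1 / 2 : ℝ) ^ om k)
    nlinarith
  · simp

theorem num1 (C1 CE1 CE2 u X x e : ℝ) (hC1 : 0 ≤ C1) (hu : 1 ≤ u) (hX : 0 ≤ X) (hx : 0 ≤ x)
    (he : 0 ≤ e) (h1 : x ≤ C1 * u) (h2 : e ≤ CE1 * X ^ 2) :
    x * e ≤ ((1 + C1) * (1 + |CE1| + |CE2|) * X * u) ^ 2 := by
  have h3 : e ≤ |CE1| * X ^ 2 :=
    h2.trans (mul_le_mul_of_nonneg_right (le_abs_self _) (by positivity))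
  have ha : C1 ≤ (1 + C1) ^ 2 := by nlinarith
  have hb : u ≤ u ^ 2 := by nlinarith
  have hd : |CE1| ≤ (1 + |CE1| + |CE2|) ^ 2 := by nlinarith [abs_nonneg CE1, abs_nonneg CE2]
  calc x * e ≤ (C1 * u) * (|CE1| * X ^ 2) := mul_le_mul h1 h3 he (by positivity)
    _ ≤ ((1 + C1) ^ 2 * u ^ 2) * ((1 + |CE1| + |CE2|) ^ 2 * X ^ 2) :=
        mul_le_mul (mul_le_mul ha hb (by linarith) (by positivity))
          (mul_le_mul_of_nonneg_right hd (by positivity)) (by positivity) (by positivity)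
    _ = ((1 + C1) * (1 + |CE1| + |CE2|) * X * u) ^ 2 := by ring

theorem num2 (C1 CE1 CE2 u X x y e : ℝ) (hC1 : 0 ≤ C1) (hu : 1 ≤ u) (hX : 0 ≤ X) (hx : 0 ≤ x)
    (hy : 0 ≤ y) (he : 0 ≤ e) (h1 : x ≤ C1 * u) (h1' : y ≤ C1 * u) (h2 : e ≤ CE2 * X ^ 2) :
    x * y * e ≤ ((1 + C1) * (1 + |CE1| + |CE2|) * X * u) ^ 2 := by
  have h3 : e ≤ |CE2| * X ^ 2 :=
    h2.trans (mul_le_mul_of_nonneg_right (le_abs_self _) (by positivity))
  have ha : C1 ≤ 1 + C1 := by linarith
  have hd : |CE2| ≤ (1 + |CE1| + |CE2|) ^ 2 := by nlinarith [abs_nonneg CE1, abs_nonneg CE2]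
  have hu0 : 0 ≤ u := by linarith
  have h5 : x * y ≤ ((1 + C1) * u) * ((1 + C1) * u) :=
    mul_le_mul (h1.trans (mul_le_mul_of_nonneg_right ha hu0))
      (h1'.trans (mul_le_mul_of_nonneg_right ha hu0)) hy (by positivity)
  calc x * y * e ≤ (((1 + C1) * u) * ((1 + C1) * u)) * (|CE2| * X ^ 2) :=
        mul_le_mul h5 h3 he (by positivity)
    _ ≤ (((1 + C1) * u) * ((1 + C1) * u)) * ((1 + |CE1| + |CE2|) ^ 2 * X ^ 2) :=
        mul_le_mul_of_nonneg_left (mul_le_mul_of_nonneg_right hd (by positivity)) (by positivity)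
    _ = ((1 + C1) * (1 + |CE1| + |CE2|) * X * u) ^ 2 := by ring

theorem t_SW : S_CT → S_SQR → S_CHAR → S_LUP → S_SIEG → S_ER1 → S_ER2 → S_SW := by
  intro hCT hSQR hCHAR hLUP hSIEG hER1 hER2 A
  obtain ⟨c0, u0, hc0, hu0, hS⟩ := hSIEG (A + 3)
  set c := min c0 (1 / 4) with hc
  have hcp : 0 < c := lt_min hc0 (by norm_num)
  have hc4 : c ≤ 1 / 4 := min_le_right _ _
  have hcc0 : c ≤ c0 := min_le_left _ _
  obtain ⟨C', hC'0, hcore⟩ := core hCT hSQR A c hcp hc4
  obtain ⟨C1, hC10, hL⟩ := Lbound hLUP (A + 3) c hcp hc4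
  obtain ⟨CE1, hE1⟩ := hER1
  obtain ⟨CE2, hE2⟩ := hER2
  set W0 := (1 + C1) * (1 + |CE1| + |CE2|) with hW0
  have hW00 : 0 ≤ W0 := by positivity
  set U := max u0 2 with hU
  have hU0 : 0 < U := lt_of_lt_of_le (by norm_num) (le_max_right _ _)
  refine ⟨C' * W0 + Real.exp U * U ^ A, ?_⟩
  intro u n D D' hu hn hD hD' hD1 hD'1 hDu hD'u
  have hu00 : 0 < u := by linarith
  have h2om : (1 : ℝ) ≤ 2 ^ om n := one_le_pow₀ (by norm_num)
  by_cases huU : u ≤ U
  · -- small `u`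
    have key : ∀ x : ℝ, x ≤ Real.exp U →
        x ≤ (C' * W0 + Real.exp U * U ^ A) * 2 ^ om n / u ^ A := by
      intro x hx
      refine hx.trans ?_
      rw [le_div_iff₀ (by positivity)]
      have h1 : u ^ A ≤ U ^ A := pow_le_pow_left₀ hu00.le huU A
      have h2 : Real.exp U * u ^ A ≤ Real.exp U * U ^ A :=
        mul_le_mul_of_nonneg_left h1 (Real.exp_pos _).le
      have h3 : 0 ≤ C' * W0 := by positivity
      have h4 : 0 ≤ Real.exp U * U ^ A := by positivity
      nlinarith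
    exact ⟨key _ (small _ (cs1_le D n) u U huU), key _ (small _ (cs2_le D D' n) u U huU)⟩
  · -- large `u`
    have huU' : U ≤ u := le_of_lt (not_le.mp huU)
    have hu0u : u0 ≤ u := (le_max_left _ _).trans huU'
    have hu2 : 2 ≤ u := (le_max_right _ _).trans huU'
    have hu9 : 0 < u ^ (-(9 / 10) : ℝ) := Real.rpow_pos_of_pos hu00 _
    have hu91 : u ^ (-(9 / 10) : ℝ) ≤ 1 := by
      apply Real.rpow_le_one_of_one_le_of_nonpos hu
      norm_num
    obtain ⟨q, hq, χ, hqD, hχ, hχ2, hχ1⟩ := hCHAR D hD hD1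
    obtain ⟨q', hq', χ', hqD', hχ', hχ'2, hχ'1⟩ := hCHAR D' hD' hD'1
    have := hq
    have := hq'
    have hpow : 4 * u ^ A ≤ u ^ (A + 3) := by
      rw [pow_add, mul_comm (u ^ A)]
      have : 4 ≤ u ^ 3 := by nlinarith [sq_nonneg u]
      exact mul_le_mul_of_nonneg_right this (by positivity)
    have hqu : (q : ℝ) ≤ u ^ (A + 3) := by
      refine le_trans (hqD.trans ?_) hpow
      linarith
    have hqu' : (q' : ℝ) ≤ u ^ (A + 3) := by
      refine le_trans (hqD'.trans ?_) hpow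
      linarith
    have hDne : D ≠ 0 := hD.ne_zero
    have hDne' : D' ≠ 0 := hD'.ne_zero
    have hLχ := hL q χ hχ1 u hu hqu
    have hLχ' := hL q' χ' hχ'1 u hu hqu'
    have hSχ : ∀ s : ℂ, 1 - c * u ^ (-(9 / 10) : ℝ) < s.re →
        |s.im| < Real.exp (u ^ (1 / 20 : ℝ) / 2) → DirichletCharacter.LFunction χ s ≠ 0 :=
      fun s h1 h2 => hS u hu0u q χ hχ2 hχ1 hqu s (by nlinarith) h2.le
    have hSχ' : ∀ s : ℂ, 1 - c * u ^ (-(9 / 10) : ℝ) < s.re →
        |s.im| < Real.exp (u ^ (1 / 20 : ℝ) / 2) → DirichletCharacter.LFunction χ' s ≠ 0 :=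
      fun s h1 h2 => hS u hu0u q' χ' hχ'2 hχ'1 hqu' s (by nlinarith) h2.le
    have hfin : ∀ x : ℝ, x ≤ C' * (W0 * 2 ^ om n) / u ^ A →
        x ≤ (C' * W0 + Real.exp U * U ^ A) * 2 ^ om n / u ^ A := by
      intro x hx
      refine hx.trans ?_
      apply div_le_div_of_nonneg_right _ (by positivity)
      have : 0 ≤ Real.exp U * U ^ A * 2 ^ om n := by positivity
      nlinarith
    have h4om : (4 : ℝ) ^ om n = (2 ^ om n) ^ 2 := by
      rw [← pow_mul, mul_comm, pow_mul]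
      norm_num
    have hnum1 : ∀ x e : ℝ, 0 ≤ x → 0 ≤ e → x ≤ C1 * u → e ≤ CE1 * 4 ^ om n →
        x * e ≤ (W0 * 2 ^ om n * u) ^ 2 := by
      intro x e hx he h1 h2
      rw [h4om] at h2
      exact num1 C1 CE1 CE2 u (2 ^ om n) x e hC10 hu (by positivity) hx he h1 h2
    have hnum2 : ∀ x y e : ℝ, 0 ≤ x → 0 ≤ y → 0 ≤ e → x ≤ C1 * u → y ≤ C1 * u →
        e ≤ CE2 * 4 ^ om n → x * y * e ≤ (W0 * 2 ^ om n * u) ^ 2 := by
      intro x y e hx hy he h1 h1' h2
      rw [h4om] at h2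
      exact num2 C1 CE1 CE2 u (2 ^ om n) x y e hC10 hu (by positivity) hx hy he h1 h1' h2
    have h1u : 0 < 1 / u := by positivity
    constructor
    · obtain ⟨E, hE, hEL⟩ := hE1 D n hDne hn
      have h := hcore (fun k => (cs1 D n k : ℂ))
        (fun s => DirichletCharacter.LFunction χ s * E s) u (W0 * 2 ^ om n) hu (by positivity)
        (fun s hs => (hEL q χ hχ s hs).1) (fun s hs => (hEL q χ hχ s hs).2)
        (fun s h1 h2 h3 => by
          have h34 : 3 / 4 < s.re := by nlinarith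
          refine ⟨((DirichletCharacter.differentiable_LFunction hχ1) s).mul (hE s h34).1, ?_⟩
          exact mul_ne_zero (hSχ s h1 h3) (hE s h34).2.1)
        (fun s h1 h2 h3 => by
          have h34 : 3 / 4 < s.re := by nlinarith
          rw [norm_mul]
          exact hnum1 _ _ (norm_nonneg _) (norm_nonneg _) (hLχ.1 s h1 h2 h3) (hE s h34).2.2)
        (fun s h1 => by
          have h34 : 3 / 4 < s.re := by rw [h1]; linarith
          rw [norm_mul]
          exact hnum1 _ _ (norm_nonneg _) (norm_nonneg _) (hLχ.2 s h1) (hE s h34).2.2)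
      rw [norm_LS_cast] at h
      exact hfin _ h
    · obtain ⟨E, hE, hEL⟩ := hE2 D D' n hDne hDne' hn
      have h := hcore (fun k => (cs2 D D' n k : ℂ))
        (fun s => DirichletCharacter.LFunction χ s * DirichletCharacter.LFunction χ' s * E s)
        u (W0 * 2 ^ om n) hu (by positivity)
        (fun s hs => (hEL q q' χ χ' hχ hχ' s hs).1) (fun s hs => (hEL q q' χ χ' hχ hχ' s hs).2)
        (fun s h1 h2 h3 => by
          have h34 : 3 / 4 < s.re := by nlinarith
          refine ⟨(((DirichletCharacter.differentiable_LFunction hχ1) s).mul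
            ((DirichletCharacter.differentiable_LFunction hχ'1) s)).mul (hE s h34).1, ?_⟩
          exact mul_ne_zero (mul_ne_zero (hSχ s h1 h3) (hSχ' s h1 h3)) (hE s h34).2.1)
        (fun s h1 h2 h3 => by
          have h34 : 3 / 4 < s.re := by nlinarith
          rw [norm_mul, norm_mul]
          exact hnum2 _ _ _ (norm_nonneg _) (norm_nonneg _) (norm_nonneg _)
            (hLχ.1 s h1 h2 h3) (hLχ'.1 s h1 h2 h3) (hE s h34).2.2)
        (fun s h1 => by
          have h34 : 3 / 4 < s.re := by rw [h1]; linarith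
          rw [norm_mul, norm_mul]
          exact hnum2 _ _ _ (norm_nonneg _) (norm_nonneg _) (norm_nonneg _)
            (hLχ.2 s h1) (hLχ'.2 s h1) (hE s h34).2.2)
      rw [norm_LS_cast] at h
      exact hfin _ h

end Pool.Agent.Y801.FK.SW
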