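import Pool.Agent.Y801.FK.SW

/-!
# Project FK, part FK-TAU: local sums of a character with small modulus (helper801)
-/

set_option autoImplicit false

open Finset

namespace Pool.Agent.Y801.FK.TAU

open Pool.Agent.Y755.FK Pool.Agent.Y801.FK.Core Pool.Agent.Y801.FK.SW

theorem gk_le (k : ℕ) : |gk k| ≤ 1 := by
  unfold gk
  split_ifs
  · rw [abs_mul, abs_pow, abs_pow]
    have h1 : |(1 / 2 : ℝ)| ^ om k ≤ 1 := pow_le_one₀ (abs_nonneg _) (by norm_num [abs_of_pos])
    have h2 : |(-1 / 2 : ℝ)| ^ (k.primeFactorsList.length - om k) ≤ 1 := by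
      apply pow_le_one₀ (abs_nonneg _)
      rw [show (-1 / 2 : ℝ) = -(1 / 2) by norm_num, abs_neg]
      norm_num [abs_of_pos]
    have h3 : 0 ≤ |(1 / 2 : ℝ)| ^ om k := by positivity
    have h4 : 0 ≤ |(-1 / 2 : ℝ)| ^ (k.primeFactorsList.length - om k) := by positivity
    nlinarith
  · simp

theorem taC_le (d : ℕ) (D : ℤ) (k : ℕ) : |taC d D k| ≤ k := by
  unfold taC
  refine (Finset.abs_sum_le_sum_abs _ _).trans ?_
  have h3 : ∀ a ∈ k.divisors.filter (fun a => rad a = d),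
      |gk a * gk (k / a) * J D (rad (k / a))| ≤ 1 := by
    intro a _
    rw [abs_mul, abs_mul]
    have h5 := gk_le a
    have h6 := gk_le (k / a)
    have h7 := abs_J_le_one D (rad (k / a))
    have h8 : |gk a| * |gk (k / a)| ≤ 1 := mul_le_one₀ h5 (abs_nonneg _) h6
    exact mul_le_one₀ h8 (abs_nonneg _) h7
  refine (Finset.sum_le_sum h3).trans ?_
  rw [Finset.sum_const, nsmul_eq_mul, mul_one]
  exact_mod_cast (Finset.card_filter_le _ _).trans (Nat.card_divisors_le_self k)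

theorem factor_norm (p : ℕ) (hp : p.Prime) (s : ℂ) (hs : 3 / 4 < s.re) :
    1 ≤ ‖2 * (p : ℂ) ^ s + 1‖ := by
  have h1 : ‖(p : ℂ) ^ s‖ = (p : ℝ) ^ s.re := Complex.norm_natCast_cpow_of_pos hp.pos s
  have h2 : (1 : ℝ) ≤ (p : ℝ) ^ s.re :=
    Real.one_le_rpow (by exact_mod_cast hp.one_lt.le) (by linarith)
  have h3 : ‖2 * (p : ℂ) ^ s‖ - ‖(1 : ℂ)‖ ≤ ‖2 * (p : ℂ) ^ s + 1‖ := by
    have := norm_sub_norm_le (2 * (p : ℂ) ^ s) (-1)
    simpa using this
  rw [norm_mul, h1, norm_one] at h3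
  have h4 : ‖(2 : ℂ)‖ = 2 := by norm_num
  rw [h4] at h3
  linarith

theorem ff_ne (d : ℕ) (s : ℂ) (hs : 3 / 4 < s.re) : ff s d ≠ 0 := by
  unfold ff
  rw [Finset.prod_ne_zero_iff]
  intro p hp
  have h := factor_norm p (Nat.prime_of_mem_primeFactors hp) s hs
  apply inv_ne_zero
  intro h0
  rw [h0, norm_zero] at h
  linarith

theorem ff_norm (d : ℕ) (s : ℂ) (hs : 3 / 4 < s.re) : ‖ff s d‖ ≤ 1 := by
  unfold ff
  rw [norm_prod]
  apply Finset.prod_le_one
  · intro p _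
    exact norm_nonneg _
  · intro p hp
    have h := factor_norm p (Nat.prime_of_mem_primeFactors hp) s hs
    rw [norm_inv]
    exact inv_le_one_of_one_le₀ h

theorem ff_diff (d : ℕ) (s : ℂ) (hs : 3 / 4 < s.re) :
    DifferentiableAt ℂ (fun z => ff z d) s := by
  unfold ff
  apply DifferentiableAt.fun_finsetProd
  intro p hp
  have hpp := Nat.prime_of_mem_primeFactors hp
  have h := factor_norm p hpp s hs
  have hne : 2 * (p : ℂ) ^ s + 1 ≠ 0 := by
    intro h0
    rw [h0, norm_zero] at h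
    linarith
  have hp0 : (p : ℂ) ≠ 0 := by exact_mod_cast hpp.ne_zero
  have h1 : DifferentiableAt ℂ (fun z : ℂ => (p : ℂ) ^ z) s :=
    differentiableAt_id.const_cpow (Or.inl hp0)
  exact ((h1.const_mul 2).add_const 1).inv hne

theorem sqf (d : ℕ) (κ : ℤ) (hd : osf d) (hκ : κ ∈ KK) : Squarefree (κ * d) := by
  rw [← Int.squarefree_natAbs, Int.natAbs_mul, Int.natAbs_natCast]
  have h2 : Nat.Coprime 2 d := (Nat.coprime_two_left).mpr hd.1
  have h3 : Squarefree (2 * d) :=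
    (Nat.squarefree_mul h2).mpr ⟨Nat.prime_two.squarefree, hd.2⟩
  simp only [KK, Finset.mem_insert, Finset.mem_singleton] at hκ
  rcases hκ with h | h | h | h <;> subst h
  · simpa using hd.2
  · simpa using hd.2
  · simpa using h3
  · simpa using h3

theorem ne_one (d : ℕ) (κ : ℤ) (hκ : κ ∈ KK) (h : ¬ (d = 1 ∧ κ = 1)) :
    κ * d ≠ 1 := by
  simp only [KK, Finset.mem_insert, Finset.mem_singleton] at hκ
  rcases hκ with h | h | h | h <;> subst h <;> omega

theorem abs_kd_le (d : ℕ) (κ : ℤ) (hκ : κ ∈ KK) : |((κ * d : ℤ) : ℝ)| ≤ 2 * d := by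
  have hd : (0 : ℝ) ≤ d := Nat.cast_nonneg d
  simp only [KK, Finset.mem_insert, Finset.mem_singleton] at hκ
  rcases hκ with h | h | h | h <;> subst h <;> push_cast <;> rw [abs_le] <;>
    constructor <;> linarith

theorem t_TAU : S_CT → S_SQR → S_CHAR → S_LUP → S_SIEG → S_EW → S_TAC → S_TAU := by
  intro hCT hSQR hCHAR hLUP hSIEG hEW hTAC A
  obtain ⟨c0, u0, hc0, hu0, hS⟩ := hSIEG (A + 3)
  set c := min c0 (1 / 4) with hc
  have hcp : 0 < c := lt_min hc0 (by norm_num)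
  have hc4 : c ≤ 1 / 4 := min_le_right _ _
  have hcc0 : c ≤ c0 := min_le_left _ _
  obtain ⟨C', hC'0, hcore⟩ := core hCT hSQR A c hcp hc4
  obtain ⟨C1, hC10, hL⟩ := Lbound hLUP (A + 3) c hcp hc4
  obtain ⟨CE, hE1⟩ := hEW
  set W0 := (1 + C1) * (1 + |CE| + |0|) * 1 with hW0
  have hW00 : 0 ≤ W0 := by positivity
  set U := max u0 2 with hU
  have hU0 : 0 < U := lt_of_lt_of_le (by norm_num) (le_max_right _ _)
  refine ⟨C' * W0 + Real.exp U * U ^ A, ?_⟩
  intro u d κ hu hd hκ hdκ hdu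
  have hu00 : 0 < u := by linarith
  by_cases huU : u ≤ U
  · -- small `u`
    refine (small _ (taC_le d (κ * d)) u U huU).trans ?_
    rw [le_div_iff₀ (by positivity)]
    have h1 : u ^ A ≤ U ^ A := pow_le_pow_left₀ hu00.le huU A
    have h2 : Real.exp U * u ^ A ≤ Real.exp U * U ^ A :=
      mul_le_mul_of_nonneg_left h1 (Real.exp_pos _).le
    have h3 : 0 ≤ C' * W0 := by positivity
    linarith
  · -- large `u`
    have huU' : U ≤ u := le_of_lt (not_le.mp huU)
    have hu0u : u0 ≤ u := (le_max_left _ _).trans huU'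
    have hu2 : 2 ≤ u := (le_max_right _ _).trans huU'
    have hu9 : 0 < u ^ (-(9 / 10) : ℝ) := Real.rpow_pos_of_pos hu00 _
    have hu91 : u ^ (-(9 / 10) : ℝ) ≤ 1 := by
      apply Real.rpow_le_one_of_one_le_of_nonpos hu
      norm_num
    have hsq := sqf d κ hd hκ
    have hDne : κ * (d : ℤ) ≠ 0 := hsq.ne_zero
    obtain ⟨q, hq, χ, hqD, hχ, hχ2, hχ1⟩ := hCHAR (κ * d) hsq (ne_one d κ hκ hdκ)
    have := hq
    have hpow : 8 * u ^ A ≤ u ^ (A + 3) := by
      rw [pow_add, mul_comm (u ^ A)]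
      have : 8 ≤ u ^ 3 := by nlinarith [sq_nonneg u]
      exact mul_le_mul_of_nonneg_right this (by positivity)
    have hqu : (q : ℝ) ≤ u ^ (A + 3) := by
      refine le_trans (hqD.trans ?_) hpow
      have := abs_kd_le d κ hκ
      linarith
    have hLχ := hL q χ hχ1 u hu hqu
    have hSχ : ∀ s : ℂ, 1 - c * u ^ (-(9 / 10) : ℝ) < s.re →
        |s.im| < Real.exp (u ^ (1 / 20 : ℝ) / 2) → DirichletCharacter.LFunction χ s ≠ 0 :=
      fun s h1 h2 => hS u hu0u q χ hχ2 hχ1 hqu s (by nlinarith) h2.le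
    obtain ⟨E, hE, -, hEL⟩ := hE1 (κ * d) hDne
    have h1u : 0 < 1 / u := by positivity
    have hnum : ∀ s : ℂ, 3 / 4 < s.re → ‖DirichletCharacter.LFunction χ s‖ ≤ C1 * u →
        ‖ff s d ^ 2 * (DirichletCharacter.LFunction χ s * E s)‖ ≤ (W0 * u) ^ 2 := by
      intro s hs h
      have h1 := num1 C1 CE 0 u 1 ‖DirichletCharacter.LFunction χ s‖ ‖E s‖ hC10 hu (by norm_num)
        (norm_nonneg _) (norm_nonneg _) h (by simpa using (hE s hs).2.2)
      rw [norm_mul, norm_mul, norm_pow]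
      have h2 : ‖ff s d‖ ^ 2 ≤ 1 := pow_le_one₀ (norm_nonneg _) (ff_norm d s hs)
      have h3 : 0 ≤ ‖DirichletCharacter.LFunction χ s‖ * ‖E s‖ := by positivity
      calc ‖ff s d‖ ^ 2 * (‖DirichletCharacter.LFunction χ s‖ * ‖E s‖)
          ≤ 1 * (‖DirichletCharacter.LFunction χ s‖ * ‖E s‖) :=
            mul_le_mul_of_nonneg_right h2 h3
        _ = ‖DirichletCharacter.LFunction χ s‖ * ‖E s‖ := one_mul _
        _ ≤ (W0 * u) ^ 2 := h1
    have h := hcore (fun k => (taC d (κ * d) k : ℂ))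
      (fun s => ff s d ^ 2 * (DirichletCharacter.LFunction χ s * E s)) u W0 hu hW00
      (fun s hs => (hTAC d κ hd hκ s hs).1)
      (fun s hs => by
        rw [(hTAC d κ hd hκ s hs).2, mul_pow]
        have := (hEL q χ hχ s hs).2
        rw [this])
      (fun s h1 h2 h3 => by
        have h34 : 3 / 4 < s.re := by nlinarith
        refine ⟨((ff_diff d s h34).pow 2).mul
          (((DirichletCharacter.differentiable_LFunction hχ1) s).mul (hE s h34).1), ?_⟩
        exact mul_ne_zero (pow_ne_zero 2 (ff_ne d s h34))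
          (mul_ne_zero (hSχ s h1 h3) (hE s h34).2.1))
      (fun s h1 h2 h3 => hnum s (by nlinarith) (hLχ.1 s h1 h2 h3))
      (fun s h1 => hnum s (by rw [h1]; linarith) (hLχ.2 s h1))
    rw [norm_LS_cast] at h
    unfold ta
    refine h.trans ?_
    apply div_le_div_of_nonneg_right _ (by positivity)
    have : 0 ≤ Real.exp U * U ^ A := by positivity
    linarith

end Pool.Agent.Y801.FK.TAU
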