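import Pool.Agent.Y755.FK.Stm

/-!
# Project FK: common part of FK-SW and FK-TAU (helper801)
-/

set_option autoImplicit false

open Finset

namespace Pool.Agent.Y801.FK.Core

open Pool.Agent.Y755.FK

/-- `ζ(s) ≤ 1 + 1 / (s - 1)` for real `s > 1` (from `Y705.QT0`) -/
theorem zeta_le {s : ℝ} (hs : 1 < s) : ∑' n : ℕ, (n : ℝ) ^ (-s) ≤ 1 + 1 / (s - 1) := by
  have hsum : Summable (fun n : ℕ => (n : ℝ) ^ (-s)) :=
    Real.summable_nat_rpow.mpr (by linarith)
  rw [hsum.tsum_eq_zero_add]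
  have h0 : ((0 : ℕ) : ℝ) ^ (-s) = 0 := by
    rw [Nat.cast_zero, Real.zero_rpow (by linarith)]
  rw [h0, zero_add]
  have h1 : ∀ n : ℕ, ((n + 1 : ℕ) : ℝ) ^ (-s) = 1 / ((n : ℝ) + 1) ^ s := by
    intro n
    rw [Real.rpow_neg (by positivity), one_div]
    push_cast
    rfl
  simp_rw [h1]
  have h2 := ZetaAsymptotics.zeta_limit_aux1 hs
  have h3 : 0 ≤ ZetaAsymptotics.termTSum s :=
    tsum_nonneg fun n => ZetaAsymptotics.term_nonneg _ _
  have h4 : 0 ≤ s * ZetaAsymptotics.termTSum s := mul_nonneg (by linarith) h3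
  linarith

/-- trivial bound for `L(s, χ)` -/
theorem norm_LFunction_le (q : ℕ) [NeZero q] (χ : DirichletCharacter ℂ q) (s : ℂ)
    (hs : 1 < s.re) : ‖DirichletCharacter.LFunction χ s‖ ≤ 1 + 1 / (s.re - 1) := by
  rw [DirichletCharacter.LFunction_eq_LSeries χ hs]
  have hsum : Summable (fun n : ℕ => (n : ℝ) ^ (-s.re)) :=
    Real.summable_nat_rpow.mpr (by linarith)
  refine le_trans ?_ (zeta_le hs)
  have hle : ∀ n : ℕ, ‖LSeries.term (fun n : ℕ => χ n) s n‖ ≤ (n : ℝ) ^ (-s.re) := by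
    intro n
    rw [LSeries.norm_term_eq]
    split_ifs with h
    · positivity
    · have hn : (0 : ℝ) < n := by exact_mod_cast Nat.pos_of_ne_zero h
      rw [Real.rpow_neg hn.le, ← one_div]
      exact div_le_div_of_nonneg_right (DirichletCharacter.norm_le_one χ _) (by positivity)
  have hsn : Summable fun n : ℕ => ‖LSeries.term (fun n : ℕ => χ n) s n‖ :=
    Summable.of_nonneg_of_le (fun n => norm_nonneg _) hle hsum
  exact (norm_tsum_le_tsum_norm hsn).trans (Summable.tsum_le_tsum hle hsn hsum)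

theorem exp_pow_bound (b : ℝ) (hb : 0 < b) (m N : ℕ) :
    ∃ C : ℝ, 0 ≤ C ∧ ∀ u : ℝ, 1 ≤ u →
      Real.exp (-(b * u ^ (1 / ((m : ℝ) + 1)))) ≤ C / u ^ N := by
  refine ⟨((m + 1) * N).factorial / b ^ ((m + 1) * N), by positivity, ?_⟩
  intro u hu
  have hu0 : 0 < u := by linarith
  set y := b * u ^ (1 / ((m : ℝ) + 1)) with hy
  have hy0 : 0 ≤ y := by positivity
  have h1 := Real.pow_div_factorial_le_exp y hy0 ((m + 1) * N)
  have h2 : y ^ ((m + 1) * N) = b ^ ((m + 1) * N) * u ^ N := by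
    rw [hy, mul_pow, pow_mul (u ^ (1 / ((m : ℝ) + 1))) (m + 1) N]
    congr 2
    rw [← Real.rpow_natCast (u ^ (1 / ((m : ℝ) + 1))) (m + 1), ← Real.rpow_mul hu0.le]
    push_cast
    rw [one_div, inv_mul_cancel₀ (by positivity), Real.rpow_one]
  rw [h2] at h1
  rw [Real.exp_neg]
  have h3 : 0 < Real.exp y := Real.exp_pos y
  have hf : (0 : ℝ) < ((m + 1) * N).factorial := by positivity
  rw [div_le_iff₀ hf] at h1
  rw [div_div, inv_eq_one_div, div_le_div_iff₀ h3 (by positivity), one_mul]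
  nlinarith

/-- the local sum of a series whose square is analytic without zeros -/
theorem core (hCT : S_CT) (hSQR : S_SQR) (A : ℕ) (c : ℝ) (hc : 0 < c) (hc4 : c ≤ 1 / 4) :
    ∃ C' : ℝ, 0 ≤ C' ∧ ∀ (a : ℕ → ℂ) (P : ℂ → ℂ) (u W : ℝ), 1 ≤ u → 0 ≤ W →
      (∀ s : ℂ, 1 < s.re → LSeriesSummable a s) →
      (∀ s : ℂ, 1 < s.re → LSeries a s ^ 2 = P s) →
      (∀ s : ℂ, 1 - c * u ^ (-(9 / 10) : ℝ) < s.re → s.re < 3 →
        |s.im| < Real.exp (u ^ (1 / 20 : ℝ) / 2) → DifferentiableAt ℂ P s ∧ P s ≠ 0) →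
      (∀ s : ℂ, 1 - c / 2 * u ^ (-(9 / 10) : ℝ) ≤ s.re → s.re ≤ 2 →
        |s.im| ≤ Real.exp (u ^ (1 / 20 : ℝ) / 4) → ‖P s‖ ≤ (W * u) ^ 2) →
      (∀ s : ℂ, s.re = 1 + 1 / u → ‖P s‖ ≤ (W * u) ^ 2) →
      ‖LS a u‖ ≤ C' * W / u ^ A := by
  obtain ⟨C, hC0, hCT⟩ := hCT
  obtain ⟨K1, hK10, hK1⟩ := exp_pow_bound (c / 2) (by positivity) 9 (A + 1)
  obtain ⟨K2, hK20, hK2⟩ := exp_pow_bound (1 / 4) (by positivity) 19 (A + 1)
  refine ⟨C * (K1 + K2), by positivity, ?_⟩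
  intro a P u W hu hW hsum hsq hP hB1 hB2
  have hu0 : 0 < u := by linarith
  set T := Real.exp (u ^ (1 / 20 : ℝ) / 2) with hT
  set T' := Real.exp (u ^ (1 / 20 : ℝ) / 4) with hT'
  have hT0 : 0 < T := Real.exp_pos _
  have hup : 0 < u ^ (1 / 20 : ℝ) := Real.rpow_pos_of_pos hu0 _
  have hTT : T' < T := by
    apply Real.exp_lt_exp.mpr
    linarith
  have hT'1 : 1 ≤ T' := by
    rw [hT']
    apply Real.one_le_exp
    positivity
  have hu9 : 0 < u ^ (-(9 / 10) : ℝ) := Real.rpow_pos_of_pos hu0 _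
  have hu91 : u ^ (-(9 / 10) : ℝ) ≤ 1 := by
    apply Real.rpow_le_one_of_one_le_of_nonpos hu
    norm_num
  have hcu : c * u ^ (-(9 / 10) : ℝ) ≤ 1 / 4 := by nlinarith
  -- the square root
  obtain ⟨K, hK⟩ := hSQR P (1 - c * u ^ (-(9 / 10) : ℝ)) 3 T
    (by nlinarith) hT0 (fun s h1 h2 h3 => hP s h1 h2 h3)
  -- the sign
  set V : Set ℂ := {s : ℂ | 1 < s.re ∧ s.re < 3 ∧ |s.im| < T} with hV
  have hVconv : Convex ℝ V := by
    have e : V = ((Complex.re) ⁻¹' (Set.Ioo (1 : ℝ) 3)) ∩ ((Complex.im) ⁻¹' (Set.Ioo (-T) T)) := by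
      ext s
      simp only [hV, Set.mem_ofPred_eq, Set.mem_inter_iff, Set.mem_preimage, Set.mem_Ioo, abs_lt]
      tauto
    rw [e]
    exact ((convex_Ioo (1 : ℝ) 3).linear_preimage Complex.reLm).inter
      ((convex_Ioo (-T) T).linear_preimage Complex.imLm)
  have hVpre : IsPreconnected V := hVconv.isPreconnected
  have hcuK : ∀ s ∈ V, 1 - c * u ^ (-(9 / 10) : ℝ) < s.re := by
    intro s hs
    have := hs.1
    have h2 : 0 < c * u ^ (-(9 / 10) : ℝ) := by positivity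
    linarith
  have hKc : ContinuousOn K V := fun s hs =>
    (hK s (hcuK s hs) hs.2.1 hs.2.2).1.continuousAt.continuousWithinAt
  have habs : LSeries.abscissaOfAbsConv a ≤ ((1 : ℝ) : EReal) := by
    apply LSeries.abscissaOfAbsConv_le_of_forall_lt_LSeriesSummable
    intro y hy
    exact hsum y (by simpa using hy)
  have hLan : ∀ s : ℂ, 1 < s.re → DifferentiableAt ℂ (LSeries a) s := by
    intro s hs
    apply (LSeries_analyticOnNhd a s _).differentiableAt
    simp only [Set.mem_ofPred_eq]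
    exact lt_of_le_of_lt habs (by exact_mod_cast hs)
  have hLc : ContinuousOn (LSeries a) V := fun s hs =>
    (hLan s hs.1).continuousAt.continuousWithinAt
  have hsq' : Set.EqOn (K ^ 2) (LSeries a ^ 2) V := by
    intro s hs
    simp only [Pi.pow_apply]
    rw [(hK s (hcuK s hs) hs.2.1 hs.2.2).2, hsq s hs.1]
  have hne : ∀ {s : ℂ}, s ∈ V → LSeries a s ≠ 0 := by
    intro s hs h0
    have h1 := hsq s hs.1
    rw [h0] at h1
    have h2 := (hP s (hcuK s hs) hs.2.1 hs.2.2).2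
    apply h2
    rw [← h1]
    ring
  obtain ⟨G, hG, hGV⟩ : ∃ G : ℂ → ℂ, (∀ s : ℂ, 1 - c * u ^ (-(9 / 10) : ℝ) < s.re → s.re < 3 →
      |s.im| < T → DifferentiableAt ℂ G s ∧ G s ^ 2 = P s) ∧ Set.EqOn G (LSeries a) V := by
    rcases hVpre.eq_or_eq_neg_of_sq_eq hKc hLc hsq' hne with h | h
    · exact ⟨K, hK, h⟩
    · refine ⟨fun s => - K s, ?_, ?_⟩
      · intro s h1 h2 h3
        obtain ⟨h4, h5⟩ := hK s h1 h2 h3
        refine ⟨h4.neg, ?_⟩
        rw [neg_sq, h5]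
      · intro s hs
        have := h hs
        simp only [Pi.neg_apply] at this
        simp only [this, neg_neg]
  have habs2 : ∀ (z w : ℂ), z ^ 2 = w → ‖w‖ ≤ (W * u) ^ 2 → ‖z‖ ≤ W * u := by
    intro z w h1 h2
    rw [← h1, norm_pow] at h2
    exact (abs_le_of_sq_le_sq' h2 (by positivity)).2
  have hmain := hCT a G u (c / 2 * u ^ (-(9 / 10) : ℝ)) T' (W * u) hu (by positivity)
    (by nlinarith) hT'1 (by positivity) hsum
    (fun s hs => habs2 _ _ (hsq s (by rw [hs]; have : 0 < 1 / u := by positivity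
                                      linarith)) (hB2 s hs))
    (fun s h1 h2 h3 => by
      have hpos : 0 < c * u ^ (-(9 / 10) : ℝ) := by positivity
      have h4 := hG s (by linarith) (by linarith) (lt_of_le_of_lt h3 hTT)
      exact ⟨h4.1, habs2 _ _ h4.2 (hB1 s h1 h2 h3)⟩)
    (fun s h1 h2 h3 => hGV ⟨h1, by linarith, lt_of_le_of_lt h3 hTT⟩)
  refine hmain.trans ?_
  have e1 : c / 2 * u ^ (-(9 / 10) : ℝ) * u = c / 2 * u ^ (1 / (((9 : ℕ) : ℝ) + 1)) := by
    rw [mul_assoc]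
    congr 1
    nth_rewrite 2 [← Real.rpow_one u]
    rw [← Real.rpow_add hu0]
    norm_num
  have e2 : 1 / T' = Real.exp (-(1 / 4 * u ^ (1 / (((19 : ℕ) : ℝ) + 1)))) := by
    rw [hT', one_div, ← Real.exp_neg]
    congr 1
    have : (1 / (((19 : ℕ) : ℝ) + 1)) = 1 / 20 := by norm_num
    rw [this]
    ring
  rw [e1, e2]
  have h1 := hK1 u hu
  have h2 := hK2 u hu
  have h3 : C * (W * u) * (Real.exp (-(c / 2 * u ^ (1 / (((9 : ℕ) : ℝ) + 1)))) +
      Real.exp (-(1 / 4 * u ^ (1 / (((19 : ℕ) : ℝ) + 1))))) ≤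
      C * (W * u) * (K1 / u ^ (A + 1) + K2 / u ^ (A + 1)) :=
    mul_le_mul_of_nonneg_left (add_le_add h1 h2) (by positivity)
  refine h3.trans (le_of_eq ?_)
  field_simp
  ring

/-- bounds of `L(s, χ)` for small moduli -/
theorem Lbound (hLUP : S_LUP) (A : ℕ) (c : ℝ) (hc : 0 < c) (hc4 : c ≤ 1 / 4) :
    ∃ C1 : ℝ, 0 ≤ C1 ∧ ∀ (q : ℕ) [NeZero q] (χ : DirichletCharacter ℂ q), χ ≠ 1 →
      ∀ u : ℝ, 1 ≤ u → (q : ℝ) ≤ u ^ A →
      (∀ s : ℂ, 1 - c / 2 * u ^ (-(9 / 10) : ℝ) ≤ s.re → s.re ≤ 2 →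
        |s.im| ≤ Real.exp (u ^ (1 / 20 : ℝ) / 4) →
          ‖DirichletCharacter.LFunction χ s‖ ≤ C1 * u) ∧
      (∀ s : ℂ, s.re = 1 + 1 / u → ‖DirichletCharacter.LFunction χ s‖ ≤ C1 * u) := by
  obtain ⟨C, hC⟩ := hLUP
  refine ⟨|C| * (2 * A + 4) * Real.exp (c / 2 * (2 * A + 4)) + 2, by positivity, ?_⟩
  intro q _ χ hχ u hu hq
  have hu0 : 0 < u := by linarith
  have hu9 : 0 < u ^ (-(9 / 10) : ℝ) := Real.rpow_pos_of_pos hu0 _
  have hu91 : u ^ (-(9 / 10) : ℝ) ≤ 1 := by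
    apply Real.rpow_le_one_of_one_le_of_nonpos hu
    norm_num
  constructor
  · intro s h1 h2 h3
    have hq1 : (1 : ℝ) ≤ q := by
      have := NeZero.pos q
      exact_mod_cast this
    set X := (q : ℝ) * (|s.im| + 3) with hX
    have hX1 : 1 ≤ X := by
      have := abs_nonneg s.im
      nlinarith
    have hX0 : 0 < X := by linarith
    have hexp1 : 1 ≤ Real.exp (u ^ (1 / 20 : ℝ) / 4) := by
      apply Real.one_le_exp
      positivity
    have hXle : X ≤ u ^ A * (4 * Real.exp (u ^ (1 / 20 : ℝ) / 4)) := by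
      apply mul_le_mul hq (by linarith) (by positivity) (by positivity)
    have h920 : u ^ (1 / 20 : ℝ) ≤ u ^ (9 / 10 : ℝ) :=
      Real.rpow_le_rpow_of_exponent_le hu (by norm_num)
    have h9pos : 1 ≤ u ^ (9 / 10 : ℝ) := Real.one_le_rpow hu (by norm_num)
    have hlog : Real.log X ≤ (2 * A + 4) * u ^ (9 / 10 : ℝ) := by
      have h4 : Real.log X ≤ Real.log (u ^ A * (4 * Real.exp (u ^ (1 / 20 : ℝ) / 4))) :=
        Real.log_le_log hX0 hXle
      have h4' : Real.log (u ^ A * (4 * Real.exp (u ^ (1 / 20 : ℝ) / 4))) =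
          A * Real.log u + (Real.log 4 + u ^ (1 / 20 : ℝ) / 4) := by
        rw [Real.log_mul (by positivity) (by positivity), Real.log_mul (by norm_num)
          (Real.exp_ne_zero _), Real.log_exp, Real.log_pow]
      rw [h4'] at h4
      have h5 : Real.log 4 ≤ 3 := by
        have := Real.log_le_sub_one_of_pos (show (0 : ℝ) < 4 by norm_num)
        linarith
      have h6 : Real.log u ≤ 2 * u ^ (9 / 10 : ℝ) := by
        have h7 := Real.log_le_sub_one_of_pos (Real.rpow_pos_of_pos hu0 (9 / 10 : ℝ))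
        rw [Real.log_rpow hu0] at h7
        have h8 : 0 ≤ Real.log u := Real.log_nonneg hu
        linarith
      have h9 : (A : ℝ) * Real.log u ≤ A * (2 * u ^ (9 / 10 : ℝ)) :=
        mul_le_mul_of_nonneg_left h6 (Nat.cast_nonneg A)
      nlinarith
    have hlog0 : 0 ≤ Real.log X := Real.log_nonneg hX1
    have hupu : u ^ (9 / 10 : ℝ) ≤ u := by
      nth_rewrite 2 [← Real.rpow_one u]
      exact Real.rpow_le_rpow_of_exponent_le hu (by norm_num)
    have hmax : max 0 (1 - s.re) ≤ c / 2 * u ^ (-(9 / 10) : ℝ) := by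
      apply max_le (by positivity)
      linarith
    have hpw : X ^ (max 0 (1 - s.re)) ≤ Real.exp (c / 2 * (2 * A + 4)) := by
      rw [Real.rpow_def_of_pos hX0]
      apply Real.exp_le_exp.mpr
      calc Real.log X * max 0 (1 - s.re)
          ≤ ((2 * A + 4) * u ^ (9 / 10 : ℝ)) * (c / 2 * u ^ (-(9 / 10) : ℝ)) :=
            mul_le_mul hlog hmax (le_max_left _ _) (by positivity)
        _ = c / 2 * (2 * A + 4) * (u ^ (9 / 10 : ℝ) * u ^ (-(9 / 10) : ℝ)) := by ring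
        _ = c / 2 * (2 * A + 4) := by
            rw [← Real.rpow_add hu0]
            norm_num
    have hb := hC q χ hχ s (by nlinarith) (by linarith)
    rw [← hX] at hb
    have hlog' : Real.log X ≤ (2 * A + 4) * u := by
      refine hlog.trans (mul_le_mul_of_nonneg_left hupu (by positivity))
    calc ‖DirichletCharacter.LFunction χ s‖ ≤ C * Real.log X * X ^ (max 0 (1 - s.re)) := hb
      _ ≤ |C| * Real.log X * X ^ (max 0 (1 - s.re)) := by
          apply mul_le_mul_of_nonneg_right _ (by positivity)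
          exact mul_le_mul_of_nonneg_right (le_abs_self C) hlog0
      _ ≤ |C| * ((2 * A + 4) * u) * Real.exp (c / 2 * (2 * A + 4)) := by
          apply mul_le_mul _ hpw (by positivity) (by positivity)
          exact mul_le_mul_of_nonneg_left hlog' (abs_nonneg C)
      _ ≤ (|C| * (2 * A + 4) * Real.exp (c / 2 * (2 * A + 4)) + 2) * u := by nlinarith
  · intro s hs
    have h1u : 0 < 1 / u := by positivity
    have h := norm_LFunction_le q χ s (by rw [hs]; linarith)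
    have e : 1 / (s.re - 1) = u := by
      rw [hs]
      simp
    rw [e] at h
    have hp : 0 ≤ |C| * (2 * A + 4) * Real.exp (c / 2 * (2 * A + 4)) := by positivity
    nlinarith

theorem phi_nonneg (v : ℝ) : 0 ≤ φ v := by
  unfold φ
  split_ifs
  · positivity
  · exact le_refl 0

theorem phi_le_one (v : ℝ) : φ v ≤ 1 := by
  unfold φ
  split_ifs with h
  · have h1 : 0 ≤ v * (1 - v) := mul_nonneg h.1 (by linarith [h.2])
    have h2 : v * (1 - v) ≤ 1 := by nlinarith [h.1, h.2]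
    nlinarith
  · exact zero_le_one

/-- trivial bound for bounded `u` -/
theorem small (a : ℕ → ℝ) (ha : ∀ k, |a k| ≤ k) (u u0 : ℝ) (h : u ≤ u0) :
    |LR a u| ≤ Real.exp u0 := by
  unfold LR
  refine (Finset.abs_sum_le_sum_abs _ _).trans ?_
  have h1 : ∀ k ∈ Icc 1 ⌊Real.exp u⌋₊, |a k / k * φ (u - Real.log k)| ≤ 1 := by
    intro k hk
    have hk1 : 1 ≤ k := (Finset.mem_Icc.mp hk).1
    have hk0 : (0 : ℝ) < k := by exact_mod_cast hk1
    rw [abs_mul, abs_div, abs_of_pos hk0, abs_of_nonneg (phi_nonneg _)]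
    have h2 : |a k| / k ≤ 1 := by
      rw [div_le_one hk0]
      exact ha k
    have h3 : 0 ≤ |a k| / k := by positivity
    nlinarith [phi_nonneg (u - Real.log k), phi_le_one (u - Real.log k)]
  refine (Finset.sum_le_sum h1).trans ?_
  rw [Finset.sum_const, Nat.card_Icc, nsmul_eq_mul, mul_one]
  have h4 : ((⌊Real.exp u⌋₊ + 1 - 1 : ℕ) : ℝ) ≤ Real.exp u := by
    rw [Nat.add_sub_cancel]
    exact Nat.floor_le (Real.exp_pos u).le
  exact h4.trans (Real.exp_le_exp.mpr h)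

theorem LS_cast (a : ℕ → ℝ) (u : ℝ) : LS (fun k => (a k : ℂ)) u = ((LR a u : ℝ) : ℂ) := by
  unfold LS LR
  push_cast
  rfl

theorem norm_LS_cast (a : ℕ → ℝ) (u : ℝ) : ‖LS (fun k => (a k : ℂ)) u‖ = |LR a u| := by
  rw [LS_cast, Complex.norm_real, Real.norm_eq_abs]

theorem abs_J_le_one (a : ℤ) (n : ℕ) : |J a n| ≤ 1 := by
  unfold J
  rcases jacobiSym.trichotomy a n with h | h | h <;> rw [h] <;> norm_num

end Pool.Agent.Y801.FK.Core
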